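import Pool.Agent.T9h94.CZ.Spec

/-!
# Piece (D) of the project CZ: automorphisms of `G × ℤ` which correct a value

Author: helper86.
-/

set_option autoImplicit false

namespace Pool.Agent.T9h86.CZ

open Multiplicative Pool.Agent.T9h94.CZ

variable {G : Type} [Group G]

/-- the endomorphism `(x, t ^ n) ↦ (x k ^ (g n + δ q x), t ^ (A n + β q x))` -/
def aut (k : G) (hk : k ∈ Subgroup.center G) (q : G →* Multiplicative ℤ) (g δ A β : ℤ) :
    G × Multiplicative ℤ →* G × Multiplicative ℤ where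
  toFun x := (x.1 * k ^ (g * toAdd x.2 + δ * toAdd (q x.1)),
    ofAdd (A * toAdd x.2 + β * toAdd (q x.1)))
  map_one' := by simp
  map_mul' x y := by
    have hc : ∀ (m : ℤ) (z : G), k ^ m * z = z * k ^ m := fun m z =>
      ((Subgroup.mem_center_iff.1 ((Subgroup.center G).zpow_mem hk m)) z).symm
    refine Prod.ext ?_ ?_
    · show x.1 * y.1 * k ^ _ = x.1 * k ^ _ * (y.1 * k ^ _)
      rw [mul_assoc x.1 (k ^ _), ← mul_assoc (k ^ _) y.1, hc _ y.1, mul_assoc y.1, ← zpow_add,
        ← mul_assoc]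
      congr 2
      simp only [Prod.snd_mul, Prod.fst_mul, toAdd_mul, map_mul]
      ring
    · apply toAdd.injective
      simp only [Prod.snd_mul, Prod.fst_mul, toAdd_mul, map_mul, toAdd_ofAdd]
      ring

theorem aut_apply (k : G) (hk : k ∈ Subgroup.center G) (q : G →* Multiplicative ℤ) (g δ A β : ℤ)
    (x : G × Multiplicative ℤ) : aut k hk q g δ A β x =
      (x.1 * k ^ (g * toAdd x.2 + δ * toAdd (q x.1)),
        ofAdd (A * toAdd x.2 + β * toAdd (q x.1))) := rfl

theorem aut_comp (k : G) (hk : k ∈ Subgroup.center G) (q : G →* Multiplicative ℤ)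
    (g δ A β g' δ' A' β' N : ℤ) (hN : toAdd (q k) = N)
    (h1 : g + g' * A + δ' * N * g = 0) (h2 : δ + g' * β + δ' * (1 + N * δ) = 0)
    (h3 : A' * A + β' * N * g = 1) (h4 : A' * β + β' * (1 + N * δ) = 0) :
    (aut k hk q g' δ' A' β').comp (aut k hk q g δ A β) = MonoidHom.id _ := by
  refine MonoidHom.ext fun x => ?_
  obtain ⟨x, n⟩ := x
  rw [MonoidHom.comp_apply, MonoidHom.id_apply, aut_apply, aut_apply]
  simp only [toAdd_ofAdd, map_mul, map_zpow, toAdd_mul, toAdd_zpow, hN, smul_eq_mul]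
  generalize toAdd (q x) = b
  refine Prod.ext ?_ ?_
  · show x * k ^ _ * k ^ _ = x
    rw [mul_assoc, ← zpow_add]
    conv_rhs => rw [← mul_one x, ← zpow_zero k]
    congr 2
    linear_combination toAdd n * h1 + b * h2
  · apply toAdd.injective
    simp only [toAdd_ofAdd]
    linear_combination toAdd n * h3 + b * h4

/-- the automorphism -/
def autE (k : G) (hk : k ∈ Subgroup.center G) (q : G →* Multiplicative ℤ)
    (g δ A β N : ℤ) (hN : toAdd (q k) = N) (hd : A * (1 + N * δ) - N * g * β = 1) :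
    G × Multiplicative ℤ ≃* G × Multiplicative ℤ :=
  MonoidHom.toMulEquiv (aut k hk q g δ A β)
    (aut k hk q (-g) (-(δ * A - g * β)) (1 + N * δ) (-β))
    (aut_comp k hk q _ _ _ _ _ _ _ _ N hN
      (by linear_combination (-g) * hd) (by linear_combination (-δ) * hd)
      (by linear_combination hd) (by ring))
    (aut_comp k hk q _ _ _ _ _ _ _ _ N hN
      (by ring) (by linear_combination (-δ) * hd)
      (by linear_combination hd) (by linear_combination (-β) * hd))

theorem autE_apply (k : G) (hk : k ∈ Subgroup.center G) (q : G →* Multiplicative ℤ)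
    (g δ A β N : ℤ) (hN : toAdd (q k) = N) (hd : A * (1 + N * δ) - N * g * β = 1) (x) :
    autE k hk q g δ A β N hN hd x = aut k hk q g δ A β x := rfl

/-- Bezout for a finite family -/
theorem bezout {ι : Type} (I : Finset ι) (y : ι → ℤ) :
    ∃ (d : ℤ) (c q : ι → ℤ), (∀ i ∈ I, y i = d * q i) ∧ d = ∑ i ∈ I, c i * y i := by
  obtain ⟨d, hd⟩ := IsPrincipalIdealRing.principal (Ideal.span (y '' (I : Set ι)))
  have h1 : d ∈ Ideal.span (y '' (I : Set ι)) := by
    rw [hd]; exact Submodule.mem_span_singleton_self d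
  obtain ⟨c, hc⟩ := (Submodule.mem_span_image_finset_iff_exists_fun' ℤ).1 h1
  have h2 : ∀ i, ∃ t, i ∈ I → y i = d * t := by
    intro i
    by_cases hi : i ∈ I
    · have h3 : y i ∈ Ideal.span (y '' (I : Set ι)) := Ideal.subset_span ⟨i, hi, rfl⟩
      rw [hd] at h3
      obtain ⟨t, ht⟩ := Submodule.mem_span_singleton.1 h3
      exact ⟨t, fun _ => by rw [← ht, smul_eq_mul, mul_comm]⟩
    · exact ⟨0, fun h => absurd h hi⟩
  choose q hq using h2
  exact ⟨d, c, q, fun i hi => hq i hi, by rw [← hc]; rfl⟩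

/-- (D) -/
theorem sArith (hS : SSmith) : SArith := by
  intro G _ _
  obtain ⟨s, χ, I, a, k, hspan, ha, hk, hdiag, hoff⟩ := hS G
  set N : ℕ := ∏ i, (a i).natAbs with hN
  have hN1 : 1 ≤ N := Nat.one_le_iff_ne_zero.2
    (Finset.prod_ne_zero_iff.2 fun i _ => Int.natAbs_ne_zero.2 (ha i))
  refine ⟨N, hN1, ?_⟩
  intro f v hv hfv hdiv
  set a₀ : ℤ := toAdd (f (1, ofAdd 1)) with ha₀
  obtain ⟨y, hy⟩ := hspan (f.comp (MonoidHom.inl G (Multiplicative ℤ)))
  -- the value of `f`
  have hf : ∀ (x : G) (n : ℤ), toAdd (f (x, ofAdd n)) = ∑ i, y i * toAdd (χ i x) + a₀ * n := by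
    intro x n
    have e1 : ((x, ofAdd n) : G × Multiplicative ℤ) = (x, 1) * (1, ofAdd 1) ^ n := by
      refine Prod.ext (by simp) ?_
      apply toAdd.injective
      simp
    have e2 := hy x
    rw [MonoidHom.comp_apply, MonoidHom.inl_apply] at e2
    rw [e1, map_mul, map_zpow, toAdd_mul, toAdd_zpow, e2, smul_eq_mul, ← ha₀]
    ring
  obtain ⟨z, c⟩ := v
  have hz : z ∈ Subgroup.center G := by
    rw [Subgroup.mem_center_iff] at hv ⊢
    intro g
    exact congrArg Prod.fst (hv (g, 1))
  obtain ⟨c, rfl⟩ : ∃ c', ofAdd c' = c := ⟨toAdd c, rfl⟩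
  have hv1 : ∑ i, y i * toAdd (χ i z) + a₀ * c = 1 := by
    rw [← hf, hfv]; rfl
  obtain ⟨d, b, q, hyq, hd⟩ := bezout I y
  have hv2 : d * (∑ i ∈ I, q i * toAdd (χ i z)) + a₀ * c = 1 := by
    rw [← hv1]
    congr 1
    rw [Finset.mul_sum, ← Finset.sum_subset (Finset.subset_univ I)]
    · refine Finset.sum_congr rfl fun i hi => ?_
      rw [hyq i hi]
      ring
    · intro i _ hi
      rw [hoff z hz i hi, mul_zero]
  obtain ⟨e, he⟩ := hdiv
  by_cases hd0 : d = 0
  · rw [hd0, zero_mul, zero_add] at hv2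
    rcases Int.eq_one_or_neg_one_of_mul_eq_one hv2 with h | h
    · refine ⟨MulEquiv.refl _, ?_⟩
      apply toAdd.injective
      exact h
    · refine ⟨MulEquiv.prodCongr (MulEquiv.refl G) (MulEquiv.inv (Multiplicative ℤ)), ?_⟩
      apply toAdd.injective
      have e3 : (MulEquiv.prodCongr (MulEquiv.refl G) (MulEquiv.inv (Multiplicative ℤ)))
          ((1, ofAdd 1) : G × Multiplicative ℤ) = (1, ofAdd (-1)) := rfl
      rw [e3, hf, h]
      simp
  · have hbq : ∑ i ∈ I, b i * q i = 1 := by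
      have h1 : d * ∑ i ∈ I, b i * q i = d * 1 := by
        rw [Finset.mul_sum, mul_one]
        conv_rhs => rw [hd]
        refine Finset.sum_congr rfl fun i hi => ?_
        rw [hyq i hi]
        ring
      exact mul_left_cancel₀ hd0 h1
    have hNa : ∀ i, ∃ t : ℤ, (N : ℤ) = t * a i := by
      intro i
      have h1 : (a i).natAbs ∣ N := Finset.dvd_prod_of_mem _ (Finset.mem_univ i)
      have h2 : a i ∣ (N : ℤ) := Int.natAbs_dvd.1 (Int.natCast_dvd_natCast.2 h1)
      obtain ⟨t, ht⟩ := h2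
      exact ⟨t, by rw [ht, mul_comm]⟩
    choose t ht using hNa
    letI : CommGroup (Subgroup.center G) :=
      { (inferInstance : Group (Subgroup.center G)) with mul_comm := fun a b => mul_comm' a b }
    set kc : Subgroup.center G := ∏ i ∈ I, (⟨k i, hk i⟩ : Subgroup.center G) ^ (b i * t i) with hkc
    have hχ : ∀ i ∈ I, toAdd (χ i (kc : G)) = b i * N := by
      intro j hj
      have h1 : χ j (kc : G) = ∏ i ∈ I, (χ j (k i)) ^ (b i * t i) := by
        have h2 : χ j (kc : G) = ((χ j).comp (Subgroup.center G).subtype) kc := rfl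
        rw [h2, hkc, map_prod]
        refine Finset.prod_congr rfl fun i _ => ?_
        rw [map_zpow]
        rfl
      rw [h1, toAdd_prod, Finset.sum_eq_single_of_mem j hj]
      · rw [toAdd_zpow, hdiag j hj j, if_pos rfl, smul_eq_mul, ht j]
        ring
      · intro i hi hij
        rw [toAdd_zpow, hdiag i hi j, if_neg (Ne.symm hij), smul_zero]
    have hχ0 : ∀ i, i ∉ I → toAdd (χ i (kc : G)) = 0 := fun i hi => hoff _ kc.2 i hi
    set Q : G →* Multiplicative ℤ := ∏ i ∈ I, (χ i) ^ (q i) with hQ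
    have hQk : toAdd (Q (kc : G)) = (N : ℤ) := by
      rw [hQ, MonoidHom.finsetProd_apply, toAdd_prod]
      have h1 : ∀ i ∈ I, toAdd (((χ i) ^ (q i)) (kc : G)) = (b i * q i) * N := by
        intro i hi
        have h2 : ((χ i) ^ (q i)) (kc : G) = (χ i (kc : G)) ^ (q i) := rfl
        rw [h2, toAdd_zpow, hχ i hi, smul_eq_mul]
        ring
      rw [Finset.sum_congr rfl h1, ← Finset.sum_mul, hbq, one_mul]
    have hco : IsCoprime a₀ ((N : ℤ) * d) :=
      IsCoprime.mul_right ⟨1, -e, by linear_combination he⟩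
        ⟨c, ∑ i ∈ I, q i * toAdd (χ i z), by linear_combination hv2⟩
    obtain ⟨A, g, hA⟩ := hco
    set E : ℤ := A * e + g * d with hE
    have hAE : A = 1 - N * E := by
      rw [hE]
      linear_combination hA - A * he
    refine ⟨autE (kc : G) kc.2 Q g (a₀ * E) A (-(N * d * E)) N hQk ?_, ?_⟩
    · linear_combination hAE + N * E * hA
    · apply toAdd.injective
      rw [autE_apply, aut_apply]
      simp only [toAdd_ofAdd, map_one, toAdd_one, mul_zero, add_zero, mul_one, one_mul]
      rw [hf]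
      have h1 : ∑ i, y i * toAdd (χ i ((kc : G) ^ g)) = g * (N * d) := by
        rw [← Finset.sum_subset (Finset.subset_univ I)]
        · have h2 : ∀ i ∈ I, y i * toAdd (χ i ((kc : G) ^ g)) = (b i * q i) * (g * (N * d)) := by
            intro i hi
            rw [map_zpow, toAdd_zpow, hχ i hi, hyq i hi, smul_eq_mul]
            ring
          rw [Finset.sum_congr rfl h2, ← Finset.sum_mul, hbq, one_mul]
        · intro i _ hi
          rw [map_zpow, toAdd_zpow, hχ0 i hi, smul_zero, mul_zero]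
      rw [h1]
      linear_combination hA

end Pool.Agent.T9h86.CZ
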